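import Mathlib

/-!
# The sharp isocapacitary constant for the Hardy inequality on trees

The best constant in `[μ] ≤ K [[μ]]_c` is `K_p = p^p / (p-1)^(p-1)` for every `1 < p < ∞`.

* Upper bound: for `u = I φ` and `t > 0` the function `min(u,t)^{p*} / t^{p*}`, `p* = p/(p-1)`, is a
  competitor for the capacity of `{u > t}`; its energy, integrated against `p t^(p-1) dt`, is at
  most `p (p*)^(p-1)` times the energy of `φ`.
* Lower bound: a half line with geometric weights.
-/

open MeasureTheory Set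
open scoped ENNReal NNReal

namespace Pool.Agent.Results.MP_a9eb04_an.SharpConstant

/-! ### Definitions -/

/-- A locally finite tree on the vertex set `V` with a root `o` and a pre-root `ostar` that is
adjacent to `o` only. -/
structure RootedTree (V : Type) where
  /-- the underlying graph -/
  G : SimpleGraph V
  /-- it is a tree: connected, without cycles -/
  isTree : G.IsTree
  /-- every vertex has finite degree -/
  locFinite : ∀ v, (G.neighborSet v).Finite
  /-- the pre-root -/
  ostar : V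
  /-- the root -/
  o : V
  /-- the pre-root is adjacent to the root only -/
  adj_ostar : ∀ v, G.Adj ostar v ↔ v = o

variable {V : Type}

/-- An infinite geodesic starting at the pre-root. -/
structure RootedTree.Ray (T : RootedTree V) where
  /-- its vertices -/
  vert : ℕ → V
  vert_zero : vert 0 = T.ostar
  inj : Function.Injective vert
  adj : ∀ n, T.G.Adj (vert n) (vert (n + 1))

/-- The set `T ∪ ∂T`: vertices and infinite geodesics starting at the pre-root (a finite maximal
geodesic is identified with the leaf at its end). -/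
inductive RootedTree.Bar (T : RootedTree V) : Type
  | vertex : V → RootedTree.Bar T
  | ray : T.Ray → RootedTree.Bar T

variable (T : RootedTree V)

/-- The set of edges of the geodesic from the pre-root to a point of `T ∪ ∂T`. -/
def RootedTree.path : T.Bar → Set T.G.edgeSet
  | .vertex v => {α | ∃ w : T.G.Walk T.ostar v, w.IsPath ∧ α.1 ∈ w.edges}
  | .ray ξ => {α | ∃ n, α.1 = s(ξ.vert n, ξ.vert (n + 1))}

/-- The successor set of an edge. -/
def RootedTree.S (α : T.G.edgeSet) : Set T.Bar := {x | α ∈ T.path x}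

/-- The topology generated by the successor sets and the singletons of vertices. -/
instance : TopologicalSpace T.Bar :=
  TopologicalSpace.generateFrom ({A | ∃ α, A = T.S α} ∪ {A | ∃ v : V, A = {.vertex v}})

/-- The Borel sets. -/
instance : MeasurableSpace T.Bar := borel T.Bar

instance : BorelSpace T.Bar := ⟨rfl⟩

/-- The Hardy operator `I φ (x) = ∑ φ(α)` over the edges `α` of the geodesic to `x`. -/
noncomputable def RootedTree.I (φ : T.G.edgeSet → ℝ≥0) (x : T.Bar) : ℝ≥0∞ :=
  ∑' α : T.path x, (φ α.1 : ℝ≥0∞)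

/-- The energy `∑ φ(α)^p π(α)`. -/
noncomputable def RootedTree.energy (p : ℝ) (π φ : T.G.edgeSet → ℝ≥0) : ℝ≥0∞ :=
  ∑' α, (φ α : ℝ≥0∞) ^ p * (π α : ℝ≥0∞)

/-- `[μ]`: the smallest constant in the Hardy inequality. -/
noncomputable def RootedTree.hardy (p : ℝ) (π : T.G.edgeSet → ℝ≥0) (μ : Measure T.Bar) : ℝ≥0∞ :=
  sInf {C : ℝ≥0∞ | ∀ φ : T.G.edgeSet → ℝ≥0, ∫⁻ x, T.I φ x ^ p ∂μ ≤ C * T.energy p π φ}

/-- The capacity. -/
noncomputable def RootedTree.cap (p : ℝ) (π : T.G.edgeSet → ℝ≥0) (A : Set T.Bar) : ℝ≥0∞ :=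
  ⨅ (φ : T.G.edgeSet → ℝ≥0) (_ : ∀ x ∈ A, 1 ≤ T.I φ x), T.energy p π φ

/-- `[[μ]]_c`: the isocapacitary constant, the supremum over the nonempty finite families of edges
with pairwise disjoint successor sets of `(∑ μ(S(α))) / Cap(⋃ S(α))`, where `a/0 = ∞` for `a > 0`
and `0/0 = 0`. -/
noncomputable def RootedTree.isocap (p : ℝ) (π : T.G.edgeSet → ℝ≥0) (μ : Measure T.Bar) : ℝ≥0∞ :=
  ⨆ (s : Finset T.G.edgeSet) (_ : s.Nonempty) (_ : (s : Set T.G.edgeSet).PairwiseDisjoint T.S),
    (∑ α ∈ s, μ (T.S α)) / T.cap p π (⋃ α ∈ s, T.S α)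

/-! ### A one-dimensional inequality -/

/-- Jensen/Hoelder on an interval. -/
lemma holder_interval (p : ℝ) (hp : 1 < p) (A B : ℝ) (f : ℝ → ℝ≥0∞) (hf : Measurable f) :
    (∫⁻ τ in Ioo A B, f τ) ^ p ≤ ENNReal.ofReal (B - A) ^ (p - 1) * ∫⁻ τ in Ioo A B, f τ ^ p := by
  have hp0 : 0 < p := by linarith
  have hc : p.HolderConjugate (p / (p - 1)) := by
    rw [Real.holderConjugate_iff]
    constructor
    · exact hp
    · field_simp; ring
  have h := ENNReal.lintegral_mul_le_Lp_mul_Lq (volume.restrict (Ioo A B)) hc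
    hf.aemeasurable (measurable_const (a := (1 : ℝ≥0∞))).aemeasurable
  simp only [Pi.mul_apply, mul_one, ENNReal.one_rpow, lintegral_const, one_mul,
    Measure.restrict_apply, MeasurableSet.univ, univ_inter, Real.volume_Ioo] at h
  calc (∫⁻ τ in Ioo A B, f τ) ^ p
      ≤ ((∫⁻ τ in Ioo A B, f τ ^ p) ^ (1 / p) *
          ENNReal.ofReal (B - A) ^ (1 / (p / (p - 1)))) ^ p := by
        exact ENNReal.rpow_le_rpow h hp0.le
    _ = ENNReal.ofReal (B - A) ^ (p - 1) * ∫⁻ τ in Ioo A B, f τ ^ p := by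
        rw [ENNReal.mul_rpow_of_nonneg _ _ hp0.le, ← ENNReal.rpow_mul, ← ENNReal.rpow_mul, mul_comm]
        congr 1
        · congr 1
          field_simp
        · rw [one_div_mul_cancel hp0.ne', ENNReal.rpow_one]

lemma Ioo_min (A B t : ℝ) : Ioo (min A t) (min B t) = Ioo A B ∩ Iio t := by
  ext x
  simp only [mem_Ioo, lt_min_iff, min_lt_iff, mem_inter_iff, mem_Iio]
  constructor
  · rintro ⟨h1 | h1, h2, h3⟩
    · exact ⟨⟨h1, h2⟩, h3⟩
    · exact absurd h1 (not_lt.mpr h3.le)
  · rintro ⟨⟨h1, h2⟩, h3⟩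
    exact ⟨Or.inl h1, h2, h3⟩

lemma diff_eq (q : ℝ) (hq : 1 < q) (A B t : ℝ) (hA : 0 ≤ A) (hAB : A ≤ B) (ht : 0 < t) :
    ENNReal.ofReal (((min B t) ^ q - (min A t) ^ q) / t ^ q) =
      ENNReal.ofReal (q / t ^ q) *
        ∫⁻ τ in Ioo A B, (Iio t).indicator (fun τ => ENNReal.ofReal (τ ^ (q - 1))) τ := by
  have ha : 0 ≤ min A t := le_min hA ht.le
  have hab : min A t ≤ min B t := min_le_min_right t hAB
  have hq0 : 0 < q := by linarith
  have h1 : ∫⁻ τ in Ioo A B, (Iio t).indicator (fun τ => ENNReal.ofReal (τ ^ (q - 1))) τ =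
      ∫⁻ τ in Ioo (min A t) (min B t), ENNReal.ofReal (τ ^ (q - 1)) := by
    rw [setLIntegral_indicator measurableSet_Iio, Ioo_min, inter_comm]
  have h2 : ∫⁻ τ in Ioo (min A t) (min B t), ENNReal.ofReal (τ ^ (q - 1)) =
      ENNReal.ofReal (((min B t) ^ q - (min A t) ^ q) / q) := by
    have hint : IntervalIntegrable (fun τ : ℝ => τ ^ (q - 1)) volume (min A t) (min B t) :=
      intervalIntegral.intervalIntegrable_rpow' (by linarith)
    rw [setLIntegral_congr Ioo_ae_eq_Ioc, ← ofReal_integral_eq_lintegral_ofReal]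
    · rw [← intervalIntegral.integral_of_le hab, integral_rpow (Or.inl (by linarith))]
      simp
    · exact (intervalIntegrable_iff_integrableOn_Ioc_of_le hab).mp hint
    · rw [Filter.EventuallyLE, ae_restrict_iff' measurableSet_Ioc]
      filter_upwards with τ hτ
      exact Real.rpow_nonneg (ha.trans hτ.1.le) _
  rw [h1, h2, ← ENNReal.ofReal_mul (by positivity)]
  congr 1
  field_simp

lemma tail_int (q τ : ℝ) (hq : 1 < q) (hτ : 0 < τ) :
    ∫⁻ t in Ioi τ, ENNReal.ofReal (t ^ (-q - 1)) = ENNReal.ofReal (τ ^ (-q) / q) := by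
  rw [← ofReal_integral_eq_lintegral_ofReal]
  · rw [integral_Ioi_rpow_of_lt (by linarith) hτ]
    congr 1
    have : -q - 1 + 1 = -q := by ring
    rw [this]
    field_simp
  · exact integrableOn_Ioi_rpow_of_lt (by linarith) hτ
  · rw [Filter.EventuallyLE, ae_restrict_iff' measurableSet_Ioi]
    filter_upwards with t ht
    exact Real.rpow_nonneg (hτ.le.trans (le_of_lt ht)) _

lemma key (p : ℝ) (hp : 1 < p) (A B : ℝ) (hA : 0 ≤ A) (hAB : A ≤ B) :
    ∫⁻ t in Ioi (0 : ℝ), ENNReal.ofReal (p * t ^ (p - 1)) *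
      ENNReal.ofReal (((min B t) ^ (p / (p - 1)) - (min A t) ^ (p / (p - 1))) /
        t ^ (p / (p - 1))) ^ p ≤
      ENNReal.ofReal (p * (p / (p - 1)) ^ (p - 1)) * ENNReal.ofReal (B - A) ^ p := by
  set q := p / (p - 1) with hq
  have hp0 : 0 < p := by linarith
  have hp1 : 0 < p - 1 := by linarith
  have hq1 : 1 < q := by rw [hq, lt_div_iff₀ hp1]; linarith
  have hq0 : 0 < q := by linarith
  have hpq : p + q = p * q := by rw [hq]; field_simp; ring
  set g : ℝ → ℝ≥0∞ := fun τ => ENNReal.ofReal (τ ^ (q - 1)) with hg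
  have hgm : Measurable g := by fun_prop
  -- pointwise bound
  have h1 : ∀ t ∈ Ioi (0 : ℝ), ENNReal.ofReal (p * t ^ (p - 1)) *
      ENNReal.ofReal (((min B t) ^ q - (min A t) ^ q) / t ^ q) ^ p ≤
      ENNReal.ofReal (B - A) ^ (p - 1) * ∫⁻ τ in Ioo A B, (Ioi τ).indicator
        (fun t => ENNReal.ofReal (p * q ^ p * τ ^ q) * ENNReal.ofReal (t ^ (-q - 1))) t := by
    intro t ht
    have ht0 : (0 : ℝ) < t := ht
    rw [diff_eq q hq1 A B t hA hAB ht0, ENNReal.mul_rpow_of_nonneg _ _ hp0.le]
    have h2 := holder_interval p hp A B ((Iio t).indicator g) (hgm.indicator measurableSet_Iio)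
    calc ENNReal.ofReal (p * t ^ (p - 1)) * (ENNReal.ofReal (q / t ^ q) ^ p *
          (∫⁻ τ in Ioo A B, (Iio t).indicator g τ) ^ p)
        ≤ ENNReal.ofReal (p * t ^ (p - 1)) * (ENNReal.ofReal (q / t ^ q) ^ p *
          (ENNReal.ofReal (B - A) ^ (p - 1) * ∫⁻ τ in Ioo A B, (Iio t).indicator g τ ^ p)) := by
          gcongr
      _ = ENNReal.ofReal (B - A) ^ (p - 1) * ((ENNReal.ofReal (p * t ^ (p - 1)) *
            ENNReal.ofReal (q / t ^ q) ^ p) * ∫⁻ τ in Ioo A B, (Iio t).indicator g τ ^ p) := by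
          ring
      _ = _ := by
          congr 1
          rw [← lintegral_const_mul _ ((hgm.indicator measurableSet_Iio).pow_const p)]
          apply setLIntegral_congr_fun measurableSet_Ioo
          intro τ hτ
          have hτ0 : 0 < τ := hA.trans_lt hτ.1
          simp only [indicator_apply, mem_Iio, mem_Ioi]
          by_cases h : τ < t
          · rw [if_pos h, if_pos h, hg]
            simp only
            rw [ENNReal.ofReal_rpow_of_nonneg (by positivity) hp0.le,
              ENNReal.ofReal_rpow_of_nonneg (by positivity) hp0.le,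
              ← ENNReal.ofReal_mul (by positivity), ← ENNReal.ofReal_mul (by positivity),
              ← ENNReal.ofReal_mul (by positivity)]
            congr 1
            rw [Real.div_rpow hq0.le (by positivity), ← Real.rpow_mul hτ0.le,
              ← Real.rpow_mul ht0.le]
            have e1 : (q - 1) * p = q := by nlinarith
            rw [e1]
            have e2 : t ^ (-q - 1) = t ^ (p - 1) / t ^ (q * p) := by
              rw [← Real.rpow_sub ht0]
              congr 1
              nlinarith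
            rw [e2]
            ring
          · rw [if_neg h, if_neg h]
            rw [ENNReal.zero_rpow_of_pos hp0, mul_zero]
  calc ∫⁻ t in Ioi (0 : ℝ), ENNReal.ofReal (p * t ^ (p - 1)) *
      ENNReal.ofReal (((min B t) ^ q - (min A t) ^ q) / t ^ q) ^ p
      ≤ ∫⁻ t in Ioi (0 : ℝ), ENNReal.ofReal (B - A) ^ (p - 1) * ∫⁻ τ in Ioo A B, (Ioi τ).indicator
        (fun t => ENNReal.ofReal (p * q ^ p * τ ^ q) * ENNReal.ofReal (t ^ (-q - 1))) t :=
        setLIntegral_mono' measurableSet_Ioi h1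
    _ = ENNReal.ofReal (B - A) ^ (p - 1) * ∫⁻ t in Ioi (0 : ℝ), ∫⁻ τ in Ioo A B,
        (Ioi τ).indicator (fun t => ENNReal.ofReal (p * q ^ p * τ ^ q) *
          ENNReal.ofReal (t ^ (-q - 1))) t := by
        rw [lintegral_const_mul']
        exact (ENNReal.rpow_lt_top_of_nonneg hp1.le ENNReal.ofReal_ne_top).ne
    _ = ENNReal.ofReal (B - A) ^ (p - 1) * ∫⁻ τ in Ioo A B, ∫⁻ t in Ioi (0 : ℝ),
        (Ioi τ).indicator (fun t => ENNReal.ofReal (p * q ^ p * τ ^ q) *
          ENNReal.ofReal (t ^ (-q - 1))) t := by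
        congr 1
        rw [lintegral_lintegral_swap]
        apply Measurable.aemeasurable
        have : (Function.uncurry fun (t τ : ℝ) => (Ioi τ).indicator
            (fun t => ENNReal.ofReal (p * q ^ p * τ ^ q) * ENNReal.ofReal (t ^ (-q - 1))) t) =
            {z : ℝ × ℝ | z.2 < z.1}.indicator (fun z => ENNReal.ofReal (p * q ^ p * z.2 ^ q) *
              ENNReal.ofReal (z.1 ^ (-q - 1))) := by
          ext ⟨t, τ⟩
          simp [Function.uncurry, indicator_apply]
        rw [this]
        apply Measurable.indicator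
        · fun_prop
        · exact measurableSet_lt measurable_snd measurable_fst
    _ = ENNReal.ofReal (B - A) ^ (p - 1) * ∫⁻ τ in Ioo A B,
          ENNReal.ofReal (p * q ^ (p - 1)) := by
        congr 1
        apply setLIntegral_congr_fun measurableSet_Ioo
        intro τ hτ
        have hτ0 : 0 < τ := hA.trans_lt hτ.1
        simp only
        rw [setLIntegral_indicator measurableSet_Ioi, Ioi_inter_Ioi, sup_eq_left.mpr hτ0.le,
          lintegral_const_mul _ (by fun_prop), tail_int q τ hq1 hτ0,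
          ← ENNReal.ofReal_mul (by positivity)]
        congr 1
        rw [Real.rpow_neg hτ0.le, Real.rpow_sub_one hq0.ne']
        have : τ ^ q ≠ 0 := (Real.rpow_pos_of_pos hτ0 q).ne'
        field_simp
    _ = _ := by
        rw [lintegral_const, Measure.restrict_apply MeasurableSet.univ, univ_inter,
          Real.volume_Ioo]
        have h3 : ENNReal.ofReal (B - A) ^ p =
            ENNReal.ofReal (B - A) ^ (p - 1) * ENNReal.ofReal (B - A) := by
          by_cases h0 : ENNReal.ofReal (B - A) = 0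
          · rw [h0, ENNReal.zero_rpow_of_pos hp0, mul_zero]
          · conv_lhs => rw [show p = (p - 1) + 1 by ring]
            rw [ENNReal.rpow_add _ _ h0 ENNReal.ofReal_ne_top, ENNReal.rpow_one]
        rw [h3]
        ring

/-! ### Combinatorics of the tree -/

/-- `b` is a child of `a`. -/
def Ch (a b : V) : Prop := ∃ (w : T.G.Walk T.ostar a) (h : T.G.Adj a b), (w.concat h).IsPath

variable {T}

lemma Ch.adj {a b : V} (h : Ch T a b) : T.G.Adj a b := h.choose_spec.choose

/-- The edge from the parent `a` to the child `b`. -/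
def Ch.edge {a b : V} (h : Ch T a b) : T.G.edgeSet := ⟨s(a, b), h.adj⟩

lemma path_unique {v : V} (w w' : T.G.Walk T.ostar v) (h : w.IsPath) (h' : w'.IsPath) : w = w' := by
  have := (T.isTree.isAcyclic.subsingleton_path T.ostar v).elim ⟨w, h⟩ ⟨w', h'⟩
  exact congrArg Subtype.val this

lemma exists_path (v : V) : ∃ w : T.G.Walk T.ostar v, w.IsPath :=
  (T.isTree.existsUnique_path T.ostar v).exists

lemma mem_path_vertex {v : V} {w : T.G.Walk T.ostar v} (h : w.IsPath) (α : T.G.edgeSet) :
    α ∈ T.path (.vertex v) ↔ α.1 ∈ w.edges := by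
  constructor
  · rintro ⟨w', h', h2⟩
    rwa [path_unique w w' h h']
  · intro h2
    exact ⟨w, h, h2⟩

lemma child_or (a b : V) (hadj : T.G.Adj a b) : Ch T a b ∨ Ch T b a := by
  obtain ⟨p, hp⟩ := exists_path (T := T) a
  obtain ⟨q, hq⟩ := exists_path (T := T) b
  by_cases hb : b ∈ p.support
  · right
    refine ⟨q, hadj.symm, ?_⟩
    rw [← T.isTree.isAcyclic.path_concat hq hp hadj.symm hb]
    exact hp
  · left
    exact ⟨p, hadj, hp.concat hb hadj⟩

lemma path_child {a b : V} (h : Ch T a b) :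
    T.path (.vertex b) = insert h.edge (T.path (.vertex a)) ∧
      h.edge ∉ T.path (.vertex a) := by
  obtain ⟨w, hadj, hw⟩ := h
  have hw' := (SimpleGraph.Walk.concat_isPath_iff hadj).mp hw
  constructor
  · ext α
    rw [mem_path_vertex hw, SimpleGraph.Walk.edges_concat, List.concat_eq_append, List.mem_append,
      mem_insert_iff, mem_path_vertex hw'.1]
    simp only [List.mem_singleton, Ch.edge, Subtype.ext_iff]
    tauto
  · rw [mem_path_vertex hw'.1]
    intro h2
    exact hw'.2 (SimpleGraph.Walk.snd_mem_support_of_mem_edges w h2)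

lemma path_ostar : T.path (.vertex T.ostar) = ∅ := by
  ext α
  rw [mem_path_vertex (w := SimpleGraph.Walk.nil) SimpleGraph.Walk.IsPath.nil]
  simp

lemma tree_induction (P : V → Prop) (h0 : P T.ostar) (h1 : ∀ a b, Ch T a b → P a → P b) :
    ∀ v, P v := by
  have key : ∀ (n : ℕ) (v : V) (w : T.G.Walk T.ostar v), w.IsPath → w.length = n → P v := by
    intro n
    induction n with
    | zero =>
      intro v w _ hl
      rw [← SimpleGraph.Walk.eq_of_length_eq_zero hl]
      exact h0
    | succ n ih =>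
      intro v w hw hl
      have hnil : ¬ w.Nil := by
        intro hn
        rw [← SimpleGraph.Walk.length_eq_zero_iff] at hn
        omega
      have hcon := SimpleGraph.Walk.concat_dropLast (p := w) (w.adj_penultimate hnil)
      have hw2 : (w.dropLast.concat (w.adj_penultimate hnil)).IsPath := by rw [hcon]; exact hw
      refine h1 w.penultimate v ⟨w.dropLast, w.adj_penultimate hnil, hw2⟩
        (ih w.penultimate w.dropLast ?_ ?_)
      · exact ((SimpleGraph.Walk.concat_isPath_iff _).mp hw2).1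
      · have := congrArg SimpleGraph.Walk.length hcon
        rw [SimpleGraph.Walk.length_concat] at this
        omega
  intro v
  obtain ⟨w, hw⟩ := exists_path (T := T) v
  exact key _ v w hw rfl

lemma exists_parent (v : V) (hv : v ≠ T.ostar) : ∃ a, Ch T a v := by
  revert hv
  refine tree_induction (T := T) (fun v => v ≠ T.ostar → ∃ a, Ch T a v) ?_ ?_ v
  · intro h; exact absurd rfl h
  · intro a b h _ _
    exact ⟨a, h⟩

lemma ray_ch (ξ : T.Ray) (n : ℕ) : Ch T (ξ.vert n) (ξ.vert (n + 1)) := by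
  have key : ∀ n, ∃ w : T.G.Walk T.ostar (ξ.vert n), w.IsPath ∧
      ∀ v ∈ w.support, ∃ k ≤ n, v = ξ.vert k := by
    intro n
    induction n with
    | zero =>
      rw [ξ.vert_zero]
      refine ⟨SimpleGraph.Walk.nil, SimpleGraph.Walk.IsPath.nil, ?_⟩
      intro v hv
      simp only [SimpleGraph.Walk.support_nil, List.mem_singleton] at hv
      exact ⟨0, le_rfl, by rw [hv, ξ.vert_zero]⟩
    | succ n ih =>
      obtain ⟨w, hw, hs⟩ := ih
      have hn : ξ.vert (n + 1) ∉ w.support := by
        intro h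
        obtain ⟨k, hk, hk2⟩ := hs _ h
        have := ξ.inj hk2
        omega
      refine ⟨w.concat (ξ.adj n), hw.concat hn _, ?_⟩
      intro v hv
      rw [SimpleGraph.Walk.support_concat, List.mem_append] at hv
      rcases hv with hv | hv
      · obtain ⟨k, hk, hk2⟩ := hs _ hv
        exact ⟨k, by omega, hk2⟩
      · simp only [List.mem_singleton] at hv
        exact ⟨n + 1, le_rfl, hv⟩
  obtain ⟨w, hw, hs⟩ := key n
  have hn : ξ.vert (n + 1) ∉ w.support := by
    intro h
    obtain ⟨k, hk, hk2⟩ := hs _ h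
    have := ξ.inj hk2
    omega
  exact ⟨w, ξ.adj n, hw.concat hn _⟩

lemma ray_path (ξ : T.Ray) (n : ℕ) :
    T.path (.vertex (ξ.vert n)) = {α | ∃ k < n, α.1 = s(ξ.vert k, ξ.vert (k + 1))} := by
  induction n with
  | zero =>
    rw [ξ.vert_zero, path_ostar]
    ext α
    simp
  | succ n ih =>
    rw [(path_child (ray_ch ξ n)).1, ih]
    ext α
    simp only [mem_insert_iff, mem_ofPred_eq, Subtype.ext_iff, Ch.edge]
    constructor
    · rintro (h | ⟨k, hk, h⟩)
      · exact ⟨n, by omega, h⟩
      · exact ⟨k, by omega, h⟩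
    · rintro ⟨k, hk, h⟩
      rcases Nat.lt_succ_iff_lt_or_eq.mp hk with h2 | h2
      · exact Or.inr ⟨k, h2, h⟩
      · subst h2
        exact Or.inl h

/-- If the edge from `a` to its child `b` lies on the geodesic to `x`, so does the geodesic to `b`. -/
lemma path_subset {a b : V} (h : Ch T a b) (x : T.Bar) (hx : h.edge ∈ T.path x) :
    T.path (.vertex b) ⊆ T.path x := by
  rcases x with v | ξ
  · obtain ⟨w, hw, hm⟩ := hx
    have hb : b ∈ w.support := SimpleGraph.Walk.snd_mem_support_of_mem_edges w hm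
    classical
    intro α hα
    rw [mem_path_vertex (hw.takeUntil hb)] at hα
    exact ⟨w, hw, SimpleGraph.Walk.edges_takeUntil_subset_edges w hb hα⟩
  · obtain ⟨n, hn⟩ := hx
    have hn' : s(a, b) = s(ξ.vert n, ξ.vert (n + 1)) := hn
    have hb : ∃ m, b = ξ.vert m := by
      have : b ∈ s(ξ.vert n, ξ.vert (n + 1)) := by rw [← hn']; exact Sym2.mem_mk_right a b
      rw [Sym2.mem_iff] at this
      rcases this with h | h
      · exact ⟨n, h⟩
      · exact ⟨n + 1, h⟩
    obtain ⟨m, rfl⟩ := hb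
    rw [ray_path]
    rintro α ⟨k, -, hk⟩
    exact ⟨k, hk⟩

lemma I_mono (φ : T.G.edgeSet → ℝ≥0) {x y : T.Bar} (h : T.path x ⊆ T.path y) :
    T.I φ x ≤ T.I φ y :=
  ENNReal.tsum_mono_subtype (fun α => (φ α : ℝ≥0∞)) h

lemma I_ostar (φ : T.G.edgeSet → ℝ≥0) : T.I φ (.vertex T.ostar) = 0 := by
  unfold RootedTree.I
  rw [path_ostar]
  simp

lemma I_child (φ : T.G.edgeSet → ℝ≥0) {a b : V} (h : Ch T a b) :
    T.I φ (.vertex b) = T.I φ (.vertex a) + φ h.edge := by
  unfold RootedTree.I
  rw [(path_child h).1]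
  have hd : Disjoint {h.edge} (T.path (.vertex a)) := by
    rw [disjoint_singleton_left]
    exact (path_child h).2
  rw [insert_eq]
  have := ENNReal.summable.tsum_union_disjoint (f := fun α : T.G.edgeSet => (φ α : ℝ≥0∞)) hd
    ENNReal.summable
  rw [this, add_comm]
  congr 1
  rw [tsum_singleton h.edge (f := fun α : T.G.edgeSet => (φ α : ℝ≥0∞))]

lemma I_ne_top (φ : T.G.edgeSet → ℝ≥0) (v : V) : T.I φ (.vertex v) ≠ ∞ := by
  refine tree_induction (T := T) (fun v => T.I φ (.vertex v) ≠ ∞) ?_ ?_ v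
  · rw [I_ostar]; simp
  · intro a b h ha
    rw [I_child φ h]
    exact ENNReal.add_ne_top.mpr ⟨ha, ENNReal.coe_ne_top⟩

/-- approximation of points by vertices -/
lemma exists_vertex (φ : T.G.edgeSet → ℝ≥0) (x : T.Bar) (t : ℝ≥0∞) (ht : t < T.I φ x) :
    ∃ v : V, T.path (.vertex v) ⊆ T.path x ∧ t < T.I φ (.vertex v) := by
  rcases x with v | ξ
  · exact ⟨v, subset_rfl, ht⟩
  · unfold RootedTree.I at ht
    rw [ENNReal.tsum_eq_iSup_sum, lt_iSup_iff] at ht
    obtain ⟨F, hF⟩ := ht
    -- a common bound for the indices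
    have hb : ∃ N, ∀ α ∈ F, α.1 ∈ T.path (.vertex (ξ.vert N)) := by
      have : ∀ α : T.path (.ray ξ), ∃ n, ∀ N, n < N → α.1 ∈ T.path (.vertex (ξ.vert N)) := by
        rintro ⟨α, n, hn⟩
        refine ⟨n, fun N hN => ?_⟩
        rw [ray_path]
        exact ⟨n, hN, hn⟩
      choose f hf using this
      refine ⟨F.sup f + 1, fun α hα => hf α _ ?_⟩
      have := Finset.le_sup (f := f) hα
      omega
    obtain ⟨N, hN⟩ := hb
    refine ⟨ξ.vert N, ?_, ?_⟩
    · rw [ray_path]
      rintro α ⟨k, -, hk⟩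
      exact ⟨k, hk⟩
    · refine hF.trans_le ?_
      unfold RootedTree.I
      let g : {α // α ∈ F} → T.path (.vertex (ξ.vert N)) := fun α => ⟨α.1.1, hN α.1 α.2⟩
      have hg : Function.Injective g := by
        rintro ⟨⟨α, h1⟩, h2⟩ ⟨⟨β, h3⟩, h4⟩ h
        simpa [g] using h
      have h1 := ENNReal.tsum_comp_le_tsum_of_injective hg (fun α => (φ α.1 : ℝ≥0∞))
      refine le_trans (le_of_eq ?_) h1
      rw [← Finset.tsum_subtype F (fun α => (φ α.1 : ℝ≥0∞))]

/-! ### Parents and children of edges -/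

lemma child_unique {a b c d : V} (h : Ch T a b) (h' : Ch T c d) (he : h.edge = h'.edge) :
    a = c ∧ b = d := by
  have he' : s(a, b) = s(c, d) := congrArg Subtype.val he
  rw [Sym2.eq_iff] at he'
  rcases he' with h1 | ⟨rfl, rfl⟩
  · exact h1
  · exfalso
    apply (path_child h).2
    rw [he, (path_child h').1]
    exact mem_insert _ _

lemma exists_ch (α : T.G.edgeSet) : ∃ a b, ∃ h : Ch T a b, h.edge = α := by
  obtain ⟨α, hα⟩ := α
  induction α using Sym2.ind with
  | _ a b =>
    rcases child_or (T := T) a b hα with h | h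
    · exact ⟨a, b, h, rfl⟩
    · exact ⟨b, a, h, Subtype.ext (Sym2.eq_swap)⟩

noncomputable def top (α : T.G.edgeSet) : V := (exists_ch α).choose
noncomputable def bot (α : T.G.edgeSet) : V := (exists_ch α).choose_spec.choose
lemma ch_top_bot (α : T.G.edgeSet) : Ch T (top α) (bot α) :=
  (exists_ch α).choose_spec.choose_spec.choose
lemma edge_top_bot (α : T.G.edgeSet) : (ch_top_bot α).edge = α :=
  (exists_ch α).choose_spec.choose_spec.choose_spec

lemma top_edge {a b : V} (h : Ch T a b) : top h.edge = a ∧ bot h.edge = b :=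
  child_unique (ch_top_bot h.edge) h (edge_top_bot h.edge)

/-! ### Successor sets are laminar -/

lemma chain_vertex (v : V) : ∀ α β : T.G.edgeSet, α ∈ T.path (.vertex v) →
    β ∈ T.path (.vertex v) →
    α ∈ T.path (.vertex (bot β)) ∨ β ∈ T.path (.vertex (bot α)) := by
  refine tree_induction (T := T) (fun v => ∀ α β : T.G.edgeSet, α ∈ T.path (.vertex v) →
    β ∈ T.path (.vertex v) →
    α ∈ T.path (.vertex (bot β)) ∨ β ∈ T.path (.vertex (bot α))) ?_ ?_ v
  · intro α β hα _
    rw [path_ostar] at hα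
    exact absurd hα (notMem_empty _)
  · intro a b h ih α β hα hβ
    have hb : T.path (.vertex b) = insert h.edge (T.path (.vertex a)) := (path_child h).1
    have h1 := hα
    have h2 := hβ
    rw [hb] at h1 h2
    rcases h1 with h1 | h1
    · right
      rw [h1, (top_edge h).2]
      exact hβ
    · rcases h2 with h2 | h2
      · left
        rw [h2, (top_edge h).2]
        exact hα
      · exact ih α β h1 h2

lemma chain (x : T.Bar) (α β : T.G.edgeSet) (hα : α ∈ T.path x) (hβ : β ∈ T.path x) :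
    α ∈ T.path (.vertex (bot β)) ∨ β ∈ T.path (.vertex (bot α)) := by
  rcases x with v | ξ
  · exact chain_vertex v α β hα hβ
  · obtain ⟨m, hm⟩ := hα
    obtain ⟨n, hn⟩ := hβ
    apply chain_vertex (ξ.vert (max m n + 1))
    · rw [ray_path]
      exact ⟨m, by omega, hm⟩
    · rw [ray_path]
      exact ⟨n, by omega, hn⟩

lemma S_subset {α β : T.G.edgeSet} (h : α ∈ T.path (.vertex (bot β))) : T.S β ⊆ T.S α := by
  intro y hy
  have h1 : T.path (.vertex (bot β)) ⊆ T.path y := by
    apply path_subset (ch_top_bot β)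
    rw [edge_top_bot]
    exact hy
  exact h1 h

lemma laminar (α β : T.G.edgeSet) : T.S α ⊆ T.S β ∨ T.S β ⊆ T.S α ∨ Disjoint (T.S α) (T.S β) := by
  by_cases hd : Disjoint (T.S α) (T.S β)
  · exact Or.inr (Or.inr hd)
  · rw [not_disjoint_iff] at hd
    obtain ⟨x, h1, h2⟩ := hd
    rcases chain x α β h1 h2 with h | h
    · exact Or.inr (Or.inl (S_subset h))
    · exact Or.inl (S_subset h)

lemma refinement (s : Finset T.G.edgeSet) : ∃ s' : Finset T.G.edgeSet,
    (s' : Set T.G.edgeSet).PairwiseDisjoint T.S ∧ (⋃ α ∈ s', T.S α) = ⋃ α ∈ s, T.S α := by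
  classical
  induction s using Finset.induction_on with
  | empty => exact ⟨∅, by simp, rfl⟩
  | insert a s ha ih =>
    obtain ⟨s', hd, hu⟩ := ih
    by_cases h : ∃ β ∈ s', T.S a ⊆ T.S β
    · obtain ⟨β, hβ, hsub⟩ := h
      refine ⟨s', hd, ?_⟩
      rw [Finset.set_biUnion_insert, ← hu, eq_comm, union_eq_right]
      exact hsub.trans (subset_biUnion_of_mem (u := fun α => T.S α) hβ)
    · push Not at h
      refine ⟨insert a (s'.filter fun β => ¬ T.S β ⊆ T.S a), ?_, ?_⟩
      · rw [Finset.coe_insert]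
        apply Set.PairwiseDisjoint.insert
        · exact hd.subset (by
            intro β hβ
            simp only [Finset.coe_filter, mem_ofPred_eq] at hβ
            exact hβ.1)
        · intro β hβ _
          simp only [Finset.coe_filter, mem_ofPred_eq] at hβ
          rcases laminar (T := T) a β with h1 | h1 | h1
          · exact absurd h1 (h β hβ.1)
          · exact absurd h1 hβ.2
          · exact h1
      · rw [Finset.set_biUnion_insert, Finset.set_biUnion_insert, ← hu]
        ext x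
        simp only [mem_union, mem_iUnion, exists_prop, Finset.mem_filter]
        constructor
        · rintro (h1 | ⟨β, hβ, h1⟩)
          · exact Or.inl h1
          · exact Or.inr ⟨β, hβ.1, h1⟩
        · rintro (h1 | ⟨β, hβ, h1⟩)
          · exact Or.inl h1
          · by_cases h2 : T.S β ⊆ T.S a
            · exact Or.inl (h2 h1)
            · exact Or.inr ⟨β, ⟨hβ, h2⟩, h1⟩

/-- value at a vertex -/
noncomputable def u (φ : T.G.edgeSet → ℝ≥0) (v : V) : ℝ := (T.I φ (.vertex v)).toReal

lemma u_nonneg (φ : T.G.edgeSet → ℝ≥0) (v : V) : 0 ≤ u φ v := ENNReal.toReal_nonneg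

lemma u_ostar (φ : T.G.edgeSet → ℝ≥0) : u φ T.ostar = 0 := by
  rw [u, I_ostar]; simp

lemma u_child (φ : T.G.edgeSet → ℝ≥0) {a b : V} (h : Ch T a b) :
    u φ b = u φ a + φ h.edge := by
  rw [u, I_child φ h, ENNReal.toReal_add (I_ne_top φ a) ENNReal.coe_ne_top]
  rfl

lemma ofReal_u (φ : T.G.edgeSet → ℝ≥0) (v : V) : ENNReal.ofReal (u φ v) = T.I φ (.vertex v) :=
  ENNReal.ofReal_toReal (I_ne_top φ v)

/-- the truncation profile -/
noncomputable def prof (q t s : ℝ) : ℝ := (min s t) ^ q / t ^ q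

lemma prof_mono {q t : ℝ} (hq : 0 < q) (ht : 0 < t) {a b : ℝ} (ha : 0 ≤ a) (hab : a ≤ b) :
    prof q t a ≤ prof q t b := by
  unfold prof
  have : (min a t) ^ q ≤ (min b t) ^ q :=
    Real.rpow_le_rpow (le_min ha ht.le) (min_le_min_right t hab) hq.le
  gcongr

lemma prof_nonneg {q t : ℝ} (ht : 0 < t) {a : ℝ} (ha : 0 ≤ a) : 0 ≤ prof q t a := by
  unfold prof
  have := le_min ha ht.le
  positivity

/-- the test function -/
noncomputable def test (q t : ℝ) (φ : T.G.edgeSet → ℝ≥0) (α : T.G.edgeSet) : ℝ≥0 :=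
  Real.toNNReal (prof q t (u φ (bot α)) - prof q t (u φ (top α)))

lemma I_test {q t : ℝ} (hq : 0 < q) (ht : 0 < t) (φ : T.G.edgeSet → ℝ≥0) (v : V) :
    T.I (test q t φ) (.vertex v) = ENNReal.ofReal (prof q t (u φ v)) := by
  refine tree_induction (T := T) (fun v => T.I (test q t φ) (.vertex v) =
    ENNReal.ofReal (prof q t (u φ v))) ?_ ?_ v
  · rw [I_ostar, u_ostar, prof, min_eq_left ht.le, Real.zero_rpow hq.ne']
    simp
  · intro a b h ha
    have hab : u φ a ≤ u φ b := by
      rw [u_child φ h]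
      have : (0 : ℝ) ≤ φ h.edge := NNReal.coe_nonneg _
      linarith
    have h1 := prof_mono hq ht (u_nonneg φ a) hab
    rw [I_child _ h, ha, test, (top_edge h).1, (top_edge h).2]
    have h2 : ((Real.toNNReal (prof q t (u φ b) - prof q t (u φ a)) : ℝ≥0) : ℝ≥0∞) =
        ENNReal.ofReal (prof q t (u φ b) - prof q t (u φ a)) := rfl
    rw [h2, ← ENNReal.ofReal_add (prof_nonneg ht (u_nonneg φ a)) (by linarith)]
    congr 1
    ring

lemma I_test_ge {q t : ℝ} (hq : 0 < q) (ht : 0 < t) (φ : T.G.edgeSet → ℝ≥0)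
    {α : T.G.edgeSet} (hα : t < u φ (bot α)) {x : T.Bar} (hx : x ∈ T.S α) :
    1 ≤ T.I (test q t φ) x := by
  have h1 : T.path (.vertex (bot α)) ⊆ T.path x := by
    apply path_subset (ch_top_bot α)
    rw [edge_top_bot]
    exact hx
  refine le_trans ?_ (I_mono _ h1)
  rw [I_test hq ht, prof, min_eq_right hα.le, div_self]
  · simp
  · exact (Real.rpow_pos_of_pos ht q).ne'

/-- superlevel sets are covered by successor sets -/
lemma level_subset (t : ℝ) (ht : 0 < t) (φ : T.G.edgeSet → ℝ≥0) :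
    {x : T.Bar | ENNReal.ofReal t < T.I φ x} ⊆ ⋃ α ∈ {α : T.G.edgeSet | t < u φ (bot α)}, T.S α := by
  intro x hx
  obtain ⟨v, hv, hv2⟩ := exists_vertex φ x _ hx
  have hne : v ≠ T.ostar := by
    rintro rfl
    rw [I_ostar] at hv2
    exact not_lt_zero hv2
  obtain ⟨a, ha⟩ := exists_parent v hne
  rw [mem_iUnion₂]
  refine ⟨ha.edge, ?_, ?_⟩
  · rw [mem_ofPred_eq, (top_edge ha).2, u]
    rw [← ENNReal.ofReal_lt_iff_lt_toReal ht.le (I_ne_top φ v)]
    exact hv2
  · apply hv
    rw [(path_child ha).1]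
    exact mem_insert _ _

lemma measurableSet_S (α : T.G.edgeSet) : MeasurableSet (T.S α) := by
  apply IsOpen.measurableSet
  exact TopologicalSpace.isOpen_generateFrom_of_mem (Or.inl ⟨α, rfl⟩)

instance countable_edges [Countable V] : Countable T.G.edgeSet := by
  have : Countable (Sym2 V) := by unfold Sym2; infer_instance
  infer_instance

lemma measurable_I [Countable V] (φ : T.G.edgeSet → ℝ≥0) : Measurable (T.I φ) := by
  have h : T.I φ = fun x => ∑' α : T.G.edgeSet, (T.S α).indicator (fun _ => (φ α : ℝ≥0∞)) x := by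
    ext x
    unfold RootedTree.I
    rw [tsum_subtype (T.path x) (fun α => (φ α : ℝ≥0∞))]
    rfl
  rw [h]
  apply Measurable.tsum
  intro α
  exact measurable_const.indicator (measurableSet_S α)

lemma cap_ne_top {p : ℝ} (hp : 0 < p) (π : T.G.edgeSet → ℝ≥0) (s : Finset T.G.edgeSet) :
    T.cap p π (⋃ α ∈ s, T.S α) ≠ ∞ := by
  classical
  let φ : T.G.edgeSet → ℝ≥0 := fun α => if α ∈ s then 1 else 0
  have h1 : T.cap p π (⋃ α ∈ s, T.S α) ≤ T.energy p π φ := by
    apply iInf₂_le
    intro x hx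
    rw [mem_iUnion₂] at hx
    obtain ⟨α, hα, hx⟩ := hx
    have h2 : (1 : ℝ≥0∞) = φ (⟨α, hx⟩ : T.path x).1 := by simp [φ, hα]
    rw [h2]
    exact ENNReal.le_tsum (f := fun α : T.path x => (φ α.1 : ℝ≥0∞)) ⟨α, hx⟩
  refine ne_top_of_le_ne_top ?_ h1
  unfold RootedTree.energy
  rw [tsum_eq_sum (s := s)]
  · rw [ENNReal.sum_ne_top]
    intro α _
    exact ENNReal.mul_ne_top (ENNReal.rpow_ne_top_of_nonneg hp.le ENNReal.coe_ne_top)
      ENNReal.coe_ne_top
  · intro α hα
    simp [φ, hα, ENNReal.zero_rpow_of_pos hp]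

lemma measure_le_cap [Countable V] {p : ℝ} (hp : 0 < p) (π : T.G.edgeSet → ℝ≥0)
    (μ : Measure T.Bar) (hκ : T.isocap p π μ ≠ ∞) (s : Finset T.G.edgeSet) :
    μ (⋃ α ∈ s, T.S α) ≤ T.isocap p π μ * T.cap p π (⋃ α ∈ s, T.S α) := by
  obtain ⟨s', hd, hu⟩ := refinement s
  rw [← hu]
  by_cases hs : s'.Nonempty
  · rw [← ENNReal.div_le_iff_le_mul (Or.inr hκ) (Or.inl (cap_ne_top hp π s')),
      measure_biUnion_finset hd (fun α _ => measurableSet_S α)]
    unfold RootedTree.isocap
    refine le_trans ?_ (le_iSup _ s')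
    refine le_trans ?_ (le_iSup _ hs)
    exact le_iSup (fun _ : (s' : Set T.G.edgeSet).PairwiseDisjoint T.S =>
      (∑ α ∈ s', μ (T.S α)) / T.cap p π (⋃ α ∈ s', T.S α)) hd
  · rw [Finset.not_nonempty_iff_eq_empty] at hs
    subst hs
    simp

lemma level_measure [Countable V] {p q t : ℝ} (hp : 0 < p) (hq : 0 < q) (ht : 0 < t)
    (π φ : T.G.edgeSet → ℝ≥0) (μ : Measure T.Bar) (hκ : T.isocap p π μ ≠ ∞) :
    μ {x : T.Bar | ENNReal.ofReal t < T.I φ x} ≤
      T.isocap p π μ * T.energy p π (test q t φ) := by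
  classical
  set B : Set T.G.edgeSet := {α : T.G.edgeSet | t < u φ (bot α)} with hB
  refine (measure_mono (level_subset t ht φ)).trans ?_
  have h1 : (⋃ α ∈ B, T.S α) = ⋃ s : Finset B, ⋃ α ∈ s.map (Function.Embedding.subtype _), T.S α := by
    ext x
    simp only [mem_iUnion, exists_prop, Finset.mem_map, Function.Embedding.subtype_apply]
    constructor
    · rintro ⟨α, hα, hx⟩
      exact ⟨{⟨α, hα⟩}, α, ⟨⟨α, hα⟩, Finset.mem_singleton_self _, rfl⟩, hx⟩
    · rintro ⟨s, α, ⟨β, hβ, rfl⟩, hx⟩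
      exact ⟨β.1, β.2, hx⟩
  rw [h1, Directed.measure_iUnion]
  · apply iSup_le
    intro s
    refine (measure_le_cap hp π μ hκ _).trans ?_
    gcongr
    apply iInf₂_le
    intro x hx
    simp only [mem_iUnion, exists_prop, Finset.mem_map, Function.Embedding.subtype_apply] at hx
    obtain ⟨α, ⟨β, hβ, rfl⟩, hx⟩ := hx
    exact I_test_ge hq ht φ β.2 hx
  · intro s s'
    refine ⟨s ∪ s', ?_, ?_⟩
    · apply biUnion_subset_biUnion_left
      intro α hα
      simp only [Finset.coe_map, mem_image, Finset.mem_coe] at hα ⊢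
      obtain ⟨β, hβ, h⟩ := hα
      exact ⟨β, Finset.mem_union_left _ hβ, h⟩
    · apply biUnion_subset_biUnion_left
      intro α hα
      simp only [Finset.coe_map, mem_image, Finset.mem_coe] at hα ⊢
      obtain ⟨β, hβ, h⟩ := hα
      exact ⟨β, Finset.mem_union_right _ hβ, h⟩

/-! ### Layer cake -/

lemma layer_fin (p : ℝ) (hp : 1 < p) (r : ℝ) (hr : 0 ≤ r) :
    ENNReal.ofReal r ^ p = ∫⁻ t in Ioo 0 r, ENNReal.ofReal (p * t ^ (p - 1)) := by
  have hp0 : 0 < p := by linarith
  have hint : IntervalIntegrable (fun τ : ℝ => p * τ ^ (p - 1)) volume 0 r :=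
    (intervalIntegral.intervalIntegrable_rpow' (by linarith)).const_mul p
  rw [setLIntegral_congr Ioo_ae_eq_Ioc, ← ofReal_integral_eq_lintegral_ofReal]
  · rw [← intervalIntegral.integral_of_le hr, intervalIntegral.integral_const_mul,
      integral_rpow (Or.inl (by linarith)), ENNReal.ofReal_rpow_of_nonneg hr hp0.le]
    congr 1
    rw [sub_add_cancel, Real.zero_rpow hp0.ne']
    field_simp
    ring
  · exact (intervalIntegrable_iff_integrableOn_Ioc_of_le hr).mp hint
  · rw [Filter.EventuallyLE, ae_restrict_iff' measurableSet_Ioc]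
    filter_upwards with τ hτ
    have := hτ.1.le
    simp only [Pi.zero_apply]
    positivity

lemma layer (p : ℝ) (hp : 1 < p) (a : ℝ≥0∞) :
    a ^ p ≤ ∫⁻ t in Ioi (0 : ℝ), {t : ℝ | ENNReal.ofReal t < a}.indicator
      (fun t => ENNReal.ofReal (p * t ^ (p - 1))) t := by
  have hp0 : 0 < p := by linarith
  have key : ∀ r : ℝ, 0 ≤ r → ENNReal.ofReal r ≤ a → ENNReal.ofReal r ^ p ≤
      ∫⁻ t in Ioi (0 : ℝ), {t : ℝ | ENNReal.ofReal t < a}.indicator
        (fun t => ENNReal.ofReal (p * t ^ (p - 1))) t := by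
    intro r hr hra
    rw [layer_fin p hp r hr]
    have h1 : ∫⁻ t in Ioo 0 r, ENNReal.ofReal (p * t ^ (p - 1)) =
        ∫⁻ t in Ioo 0 r, {t : ℝ | ENNReal.ofReal t < a}.indicator
        (fun t => ENNReal.ofReal (p * t ^ (p - 1))) t := by
      apply setLIntegral_congr_fun measurableSet_Ioo
      intro t ht
      have : ENNReal.ofReal t < a := by
        refine lt_of_lt_of_le ?_ hra
        rw [ENNReal.ofReal_lt_ofReal_iff (ht.1.trans ht.2)]
        exact ht.2
      simp [this]
    rw [h1]
    exact lintegral_mono_set (fun t ht => ht.1)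
  by_cases ha : a = ∞
  · subst ha
    rw [ENNReal.top_rpow_of_pos hp0, top_le_iff]
    apply ENNReal.eq_top_of_forall_nnreal_le
    intro r
    have h := key ((r : ℝ) ^ (1 / p)) (by positivity) le_top
    rw [ENNReal.ofReal_rpow_of_nonneg (by positivity) hp0.le, ← Real.rpow_mul (by positivity),
      one_div_mul_cancel hp0.ne', Real.rpow_one, ENNReal.ofReal_coe_nnreal] at h
    exact h
  · have := key a.toReal ENNReal.toReal_nonneg (ENNReal.ofReal_toReal_le)
    rwa [ENNReal.ofReal_toReal ha] at this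

/-! ### Upper bound -/

/-- the root edge -/
def rootEdge (T : RootedTree V) : T.G.edgeSet := ⟨s(T.ostar, T.o), (T.adj_ostar T.o).mpr rfl⟩

lemma root_mem_vertex (v : V) : v = T.ostar ∨ rootEdge T ∈ T.path (.vertex v) := by
  refine tree_induction (T := T) (fun v => v = T.ostar ∨ rootEdge T ∈ T.path (.vertex v)) ?_ ?_ v
  · exact Or.inl rfl
  · intro a b h ha
    right
    rw [(path_child h).1]
    rcases ha with rfl | ha
    · have : b = T.o := (T.adj_ostar b).mp h.adj
      subst this
      exact Or.inl rfl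
    · exact Or.inr ha

lemma I_zero_of_not_mem (φ : T.G.edgeSet → ℝ≥0) (x : T.Bar) (hx : x ∉ T.S (rootEdge T)) :
    T.I φ x = 0 := by
  by_contra h
  have h1 : 0 < T.I φ x := pos_iff_ne_zero.mpr h
  obtain ⟨v, hv, hv2⟩ := exists_vertex φ x _ h1
  rcases root_mem_vertex (T := T) v with rfl | h3
  · rw [I_ostar] at hv2
    exact lt_irrefl _ hv2
  · exact hx (hv h3)

lemma test_coe {q t : ℝ} (φ : T.G.edgeSet → ℝ≥0) (α : T.G.edgeSet) :
    (test q t φ α : ℝ≥0∞) = ENNReal.ofReal
      (((min (u φ (bot α)) t) ^ q - (min (u φ (top α)) t) ^ q) / t ^ q) := by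
  unfold test prof
  rw [← sub_div]
  rfl

lemma upper [Countable V] (p : ℝ) (hp : 1 < p) (π : T.G.edgeSet → ℝ≥0) (μ : Measure T.Bar) :
    T.hardy p π μ ≤ ENNReal.ofReal (p * (p / (p - 1)) ^ (p - 1)) * T.isocap p π μ := by
  have hp0 : 0 < p := by linarith
  have hp1 : 0 < p - 1 := by linarith
  set q := p / (p - 1) with hq
  have hq1 : 1 < q := by rw [hq, lt_div_iff₀ hp1]; linarith
  have hq0 : 0 < q := by linarith
  set K := ENNReal.ofReal (p * q ^ (p - 1)) with hK
  have hK0 : K ≠ 0 := by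
    rw [hK]
    have : 0 < p * q ^ (p - 1) := by positivity
    simpa using this
  by_cases hκ : T.isocap p π μ = ∞
  · rw [hκ, ENNReal.mul_top hK0]
    exact le_top
  apply sInf_le
  intro φ
  set κ := T.isocap p π μ with hκdef
  set R := T.S (rootEdge T) with hR
  have hRm : MeasurableSet R := measurableSet_S _
  have hfin : μ R ≠ ∞ := by
    have h1 := measure_le_cap hp0 π μ hκ {rootEdge T}
    simp only [Finset.mem_singleton, iUnion_iUnion_eq_left] at h1
    refine ne_top_of_le_ne_top (ENNReal.mul_ne_top hκ ?_) h1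
    have h2 := cap_ne_top hp0 π {rootEdge T}
    simpa only [Finset.mem_singleton, iUnion_iUnion_eq_left] using h2
  have : IsFiniteMeasure (μ.restrict R) := ⟨by
    rw [Measure.restrict_apply MeasurableSet.univ, univ_inter]
    exact lt_top_iff_ne_top.mpr hfin⟩
  have hI := measurable_I φ
  have h1 : ∫⁻ x, T.I φ x ^ p ∂μ = ∫⁻ x in R, T.I φ x ^ p ∂μ := by
    rw [← lintegral_indicator hRm]
    congr 1
    ext x
    by_cases hx : x ∈ R
    · rw [indicator_of_mem hx]
    · rw [indicator_of_notMem hx, I_zero_of_not_mem φ x hx, ENNReal.zero_rpow_of_pos hp0]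
  set f : ℝ → ℝ≥0∞ := fun t => ENNReal.ofReal (p * t ^ (p - 1)) with hf
  have hfm : Measurable f := by fun_prop
  calc ∫⁻ x, T.I φ x ^ p ∂μ = ∫⁻ x in R, T.I φ x ^ p ∂μ := h1
    _ ≤ ∫⁻ x in R, (∫⁻ t in Ioi (0 : ℝ),
          {t : ℝ | ENNReal.ofReal t < T.I φ x}.indicator f t) ∂μ :=
        lintegral_mono fun x => layer p hp _
    _ = ∫⁻ t in Ioi (0 : ℝ), (∫⁻ x in R,
          {t : ℝ | ENNReal.ofReal t < T.I φ x}.indicator f t ∂μ) := by
        rw [lintegral_lintegral_swap]
        apply Measurable.aemeasurable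
        have : (Function.uncurry fun (x : T.Bar) (t : ℝ) =>
            {t : ℝ | ENNReal.ofReal t < T.I φ x}.indicator f t) =
            {z : T.Bar × ℝ | ENNReal.ofReal z.2 < T.I φ z.1}.indicator (fun z => f z.2) := by
          ext ⟨x, t⟩
          simp [Function.uncurry, indicator_apply]
        rw [this]
        apply Measurable.indicator
        · exact hfm.comp measurable_snd
        · exact measurableSet_lt (ENNReal.measurable_ofReal.comp measurable_snd)
            (hI.comp measurable_fst)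
    _ ≤ ∫⁻ t in Ioi (0 : ℝ), f t * (κ * T.energy p π (test q t φ)) := by
        apply setLIntegral_mono' measurableSet_Ioi
        intro t ht
        have h2 : ∀ x, {t : ℝ | ENNReal.ofReal t < T.I φ x}.indicator f t =
            {x : T.Bar | ENNReal.ofReal t < T.I φ x}.indicator (fun _ => f t) x := by
          intro x
          simp [indicator_apply]
        simp only [h2]
        rw [lintegral_indicator_const (measurableSet_lt measurable_const hI)]
        gcongr
        exact (Measure.restrict_apply_le _ _).trans (level_measure hp0 hq0 ht π φ μ hκ)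
    _ = κ * ∑' α : T.G.edgeSet, (∫⁻ t in Ioi (0 : ℝ), f t * (test q t φ α : ℝ≥0∞) ^ p) * π α := by
        have hm : ∀ α : T.G.edgeSet, Measurable fun t : ℝ =>
            f t * (test q t φ α : ℝ≥0∞) ^ p := by
          intro α
          apply hfm.mul
          apply Measurable.pow_const
          simp only [test_coe]
          fun_prop
        have h3 : ∀ t, f t * (κ * T.energy p π (test q t φ)) =
            κ * ∑' α : T.G.edgeSet, (f t * (test q t φ α : ℝ≥0∞) ^ p) * π α := by
          intro t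
          unfold RootedTree.energy
          rw [← mul_assoc, mul_comm (f t) κ, mul_assoc, ← ENNReal.tsum_mul_left]
          simp only [mul_assoc]
        simp only [h3]
        rw [lintegral_const_mul' _ _ hκ, lintegral_tsum]
        · congr 1
          apply tsum_congr
          intro α
          rw [lintegral_mul_const _ (hm α)]
        · intro α
          exact ((hm α).mul_const _).aemeasurable
    _ ≤ κ * ∑' α : T.G.edgeSet, (K * (φ α : ℝ≥0∞) ^ p) * π α := by
        gcongr with α
        simp only [test_coe]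
        have h4 : u φ (bot α) = u φ (top α) + φ α := by
          have := u_child φ (ch_top_bot α)
          rwa [edge_top_bot] at this
        have h5 : (0 : ℝ) ≤ φ α := NNReal.coe_nonneg _
        have h6 := key p hp (u φ (top α)) (u φ (bot α)) (u_nonneg φ _) (by linarith)
        refine h6.trans (le_of_eq ?_)
        rw [h4, add_sub_cancel_left, ENNReal.ofReal_coe_nnreal]
    _ = K * κ * T.energy p π φ := by
        unfold RootedTree.energy
        simp only [mul_assoc]
        rw [ENNReal.tsum_mul_left, ← mul_assoc, ← mul_assoc, mul_comm κ K]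

/-! ### The half line -/

/-- the half line graph on `ℕ` -/
def lineG : SimpleGraph ℕ := SimpleGraph.fromRel (fun i j => i + 1 = j)

lemma line_adj (n : ℕ) : lineG.Adj n (n + 1) := by
  simp [lineG, SimpleGraph.fromRel_adj]

lemma line_tree : lineG.IsTree := by
  have hreach : ∀ n, lineG.Reachable 0 n := by
    intro n
    induction n with
    | zero => exact SimpleGraph.Reachable.refl 0
    | succ n ih => exact ih.trans (line_adj n).reachable
  refine ⟨⟨fun i j => (hreach i).symm.trans (hreach j)⟩, ?_⟩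
  rw [SimpleGraph.isAcyclic_iff_forall_adj_isBridge]
  have key : ∀ i : ℕ, lineG.IsBridge s(i, i + 1) := by
    intro i
    rw [SimpleGraph.isBridge_iff]
    rintro ⟨w⟩
    have h : ∀ (a b : ℕ), (lineG.deleteEdges {s(i, i + 1)}).Walk a b → (a ≤ i ↔ b ≤ i) := by
      intro a b w
      induction w with
      | nil => rfl
      | cons hadj _ ih =>
        rw [← ih]
        rw [SimpleGraph.deleteEdges_adj] at hadj
        obtain ⟨h1, h2⟩ := hadj
        rw [lineG, SimpleGraph.fromRel_adj] at h1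
        rw [mem_singleton_iff, Sym2.eq_iff] at h2
        omega
    have := h _ _ w
    omega
  intro v w hadj
  rw [lineG, SimpleGraph.fromRel_adj] at hadj
  rcases hadj.2 with h | h
  · rw [← h]; exact key v
  · rw [← h, Sym2.eq_swap]; exact key w

/-- the half line as a rooted tree -/
def line : RootedTree ℕ where
  G := lineG
  isTree := line_tree
  locFinite := by
    intro v
    apply (Set.finite_Iic (v + 1)).subset
    intro w hw
    have : lineG.Adj v w := hw
    rw [lineG, SimpleGraph.fromRel_adj] at this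
    rw [mem_Iic]
    omega
  ostar := 0
  o := 1
  adj_ostar := by
    intro v
    rw [lineG, SimpleGraph.fromRel_adj]
    omega

def lineRay : line.Ray where
  vert := fun n => n
  vert_zero := rfl
  inj := fun _ _ h => h
  adj := line_adj

lemma line_ch (n : ℕ) : Ch line n (n + 1) := ray_ch lineRay n

def eg (n : ℕ) : line.G.edgeSet := (line_ch n).edge

lemma eg_inj : Function.Injective eg := by
  intro a b h
  exact (child_unique (line_ch a) (line_ch b) h).1

lemma eg_surj : Function.Surjective eg := by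
  rintro ⟨α, hα⟩
  induction α using Sym2.ind with
  | _ a b =>
    have : lineG.Adj a b := hα
    rw [lineG, SimpleGraph.fromRel_adj] at this
    rcases this.2 with h | h
    · refine ⟨a, Subtype.ext ?_⟩
      simp [eg, Ch.edge, h]
    · refine ⟨b, Subtype.ext ?_⟩
      simp [eg, Ch.edge, h, Sym2.eq_swap]

lemma eg_top (n : ℕ) : top (eg n) = n := (top_edge (line_ch n)).1

lemma line_path (n : ℕ) (k : ℕ) : eg k ∈ line.path (.vertex n) ↔ k < n := by
  have h := ray_path lineRay n
  have h' : line.path (.vertex n) = {α | ∃ k < n, α.1 = s(k, k + 1)} := h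
  rw [h']
  constructor
  · rintro ⟨j, hj, hj2⟩
    have h3 : eg k = eg j := Subtype.ext hj2
    rw [eg_inj h3]
    exact hj
  · intro hk
    exact ⟨k, hk, rfl⟩

lemma line_I (φ : line.G.edgeSet → ℝ≥0) (n : ℕ) :
    line.I φ (.vertex n) = ((∑ k ∈ Finset.range n, φ (eg k) : ℝ≥0) : ℝ≥0∞) := by
  induction n with
  | zero =>
    have h0 := I_ostar (T := line) φ
    rw [Finset.sum_range_zero, ENNReal.coe_zero]
    exact h0
  | succ n ih =>
    rw [I_child φ (line_ch n), ih, Finset.sum_range_succ, ENNReal.coe_add]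
    rfl

lemma line_energy (p : ℝ) (π φ : line.G.edgeSet → ℝ≥0) :
    line.energy p π φ = ∑' k : ℕ, (φ (eg k) : ℝ≥0∞) ^ p * (π (eg k) : ℝ≥0∞) := by
  unfold RootedTree.energy
  rw [← (Equiv.ofBijective eg ⟨eg_inj, eg_surj⟩).tsum_eq]
  rfl

section Example

variable (p h : ℝ)

/-- lengths -/
noncomputable def ell (k : ℕ) : ℝ≥0 := Real.toNNReal (Real.exp (h * (k + 1)) - Real.exp (h * k))

noncomputable def wt (α : line.G.edgeSet) : ℝ≥0 := ell h (top α) ^ (-(p - 1))

noncomputable def tail (m : ℕ) : ℝ := Real.exp (-((p - 1) * h * m))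

noncomputable def mass (n : ℕ) : ℝ≥0∞ := ENNReal.ofReal (tail p h (n + 1) - tail p h (n + 2))

noncomputable def mu : Measure line.Bar :=
  Measure.sum fun n : ℕ => mass p h n • Measure.dirac (.vertex (n + 1))

variable {p h}

lemma ell_coe (hh : 0 < h) (k : ℕ) :
    (ell h k : ℝ) = Real.exp (h * (k + 1)) - Real.exp (h * k) := by
  unfold ell
  apply Real.coe_toNNReal
  rw [sub_nonneg, Real.exp_le_exp]
  nlinarith

lemma ell_pos (hh : 0 < h) (k : ℕ) : 0 < ell h k := by
  rw [← NNReal.coe_pos, ell_coe hh, sub_pos, Real.exp_lt_exp]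
  nlinarith

lemma tail_anti (hp : 1 < p) (hh : 0 < h) {m n : ℕ} (hmn : m ≤ n) :
    tail p h n ≤ tail p h m := by
  unfold tail
  rw [Real.exp_le_exp]
  have h1 : (m : ℝ) ≤ n := by exact_mod_cast hmn
  have h2 : 0 < (p - 1) * h := mul_pos (by linarith) hh
  nlinarith

lemma mass_tail (hp : 1 < p) (hh : 0 < h) (m : ℕ) :
    ∑' n : ℕ, (if m ≤ n then mass p h n else 0) ≤ ENNReal.ofReal (tail p h (m + 1)) := by
  rw [ENNReal.tsum_eq_iSup_nat]
  apply iSup_le
  intro N
  have key : ∀ N, ∑ n ∈ Finset.range N, (if m ≤ n then mass p h n else 0) ≤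
      ENNReal.ofReal (tail p h (m + 1) - tail p h (max m N + 1)) := by
    intro N
    induction N with
    | zero => simp
    | succ N ih =>
      rw [Finset.sum_range_succ]
      by_cases hm : m ≤ N
      · rw [if_pos hm, max_eq_right (by omega : m ≤ N + 1)]
        rw [max_eq_right hm] at ih
        refine (add_le_add_left ih _).trans ?_
        unfold mass
        rw [← ENNReal.ofReal_add]
        · apply ENNReal.ofReal_le_ofReal
          have : (tail p h (N + 1 + 1)) = tail p h (N + 2) := rfl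
          linarith
        · have := tail_anti hp hh (by omega : m + 1 ≤ N + 1)
          linarith
        · have := tail_anti hp hh (by omega : N + 1 ≤ N + 2)
          linarith
      · rw [if_neg hm, add_zero]
        rw [max_eq_left (by omega : N ≤ m)] at ih
        rw [max_eq_left (by omega : N + 1 ≤ m)]
        exact ih
  refine (key N).trans ?_
  apply ENNReal.ofReal_le_ofReal
  have : 0 < tail p h (max m N + 1) := Real.exp_pos _
  linarith

lemma line_measurable_I (φ : line.G.edgeSet → ℝ≥0) : Measurable (line.I φ) := measurable_I φ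

lemma mu_apply (hp : 1 < p) (hh : 0 < h) (m : ℕ) (A : Set line.Bar) (hA : MeasurableSet A)
    (hm : ∀ n, RootedTree.Bar.vertex (n + 1) ∈ A → m ≤ n) :
    mu p h A ≤ ENNReal.ofReal (tail p h (m + 1)) := by
  refine le_trans ?_ (mass_tail hp hh m)
  unfold mu
  rw [Measure.sum_apply _ hA]
  apply ENNReal.tsum_le_tsum
  intro n
  rw [Measure.smul_apply, Measure.dirac_apply' _ hA]
  by_cases h1 : RootedTree.Bar.vertex (n + 1) ∈ A
  · rw [if_pos (hm n h1)]
    simp [h1]
  · simp [h1]

lemma cap_ge (hp : 1 < p) (hh : 0 < h) (m : ℕ) (A : Set line.Bar)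
    (hA : RootedTree.Bar.vertex (m + 1) ∈ A) :
    ENNReal.ofReal (tail p h (m + 1)) ≤ line.cap p (wt p h) A := by
  have hp0 : 0 < p := by linarith
  have hp1 : 0 < p - 1 := by linarith
  apply le_iInf₂
  intro φ hφ
  have h1 := hφ _ hA
  rw [line_I] at h1
  have h2 : (1 : ℝ≥0) ≤ ∑ k ∈ Finset.range (m + 1), φ (eg k) := by exact_mod_cast h1
  have hc : p.HolderConjugate (p / (p - 1)) := by
    rw [Real.holderConjugate_iff]
    exact ⟨hp, by field_simp; ring⟩
  have h3 := NNReal.inner_le_Lp_mul_Lq (Finset.range (m + 1))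
    (fun k => φ (eg k) * ell h k ^ (-((p - 1) / p))) (fun k => ell h k ^ ((p - 1) / p)) hc
  have h4 : ∀ k, φ (eg k) * ell h k ^ (-((p - 1) / p)) * ell h k ^ ((p - 1) / p) = φ (eg k) := by
    intro k
    rw [mul_assoc, ← NNReal.rpow_add (ell_pos hh k).ne', neg_add_cancel, NNReal.rpow_zero, mul_one]
  have h5 : ∀ k, (φ (eg k) * ell h k ^ (-((p - 1) / p))) ^ p =
      φ (eg k) ^ p * wt p h (eg k) := by
    intro k
    rw [NNReal.mul_rpow, ← NNReal.rpow_mul, wt, eg_top]
    congr 2
    field_simp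
  have h6 : ∀ k, (ell h k ^ ((p - 1) / p)) ^ (p / (p - 1)) = ell h k := by
    intro k
    rw [← NNReal.rpow_mul]
    have : (p - 1) / p * (p / (p - 1)) = 1 := by field_simp
    rw [this, NNReal.rpow_one]
  simp only [h4, h5, h6] at h3
  -- sum of lengths
  have h7 : ∑ k ∈ Finset.range (m + 1), ell h k ≤ Real.toNNReal (Real.exp (h * (m + 1 : ℕ))) := by
    rw [← NNReal.coe_le_coe, Real.coe_toNNReal _ (Real.exp_pos _).le, NNReal.coe_sum]
    have h8 : ∀ k ∈ Finset.range (m + 1), (ell h k : ℝ) =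
        Real.exp (h * (k + 1 : ℕ)) - Real.exp (h * k) := by
      intro k _
      rw [ell_coe hh]
      push_cast
      rfl
    rw [Finset.sum_congr rfl h8, Finset.sum_range_sub (fun k : ℕ => Real.exp (h * k))]
    have : 0 < Real.exp (h * (0 : ℕ)) := Real.exp_pos _
    linarith
  set E : ℝ≥0 := ∑ k ∈ Finset.range (m + 1), φ (eg k) ^ p * wt p h (eg k) with hE
  have h9 : (1 : ℝ≥0) ≤ E * (Real.toNNReal (Real.exp (h * (m + 1 : ℕ)))) ^ (p - 1) := by
    have h10 : (1 : ℝ≥0) ≤ E ^ (1 / p) *
        (∑ k ∈ Finset.range (m + 1), ell h k) ^ (1 / (p / (p - 1))) := h2.trans h3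
    have h11 : (1 : ℝ≥0) ≤ (E ^ (1 / p) *
        (∑ k ∈ Finset.range (m + 1), ell h k) ^ (1 / (p / (p - 1)))) ^ p :=
      NNReal.one_le_rpow h10 hp0.le
    rw [NNReal.mul_rpow, ← NNReal.rpow_mul, ← NNReal.rpow_mul, one_div_mul_cancel hp0.ne',
      NNReal.rpow_one] at h11
    have h12 : 1 / (p / (p - 1)) * p = p - 1 := by field_simp
    rw [h12] at h11
    refine h11.trans ?_
    gcongr
  have h13 : Real.toNNReal (tail p h (m + 1)) ≤ E := by
    have h14 : Real.toNNReal (tail p h (m + 1)) *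
        (Real.toNNReal (Real.exp (h * (m + 1 : ℕ)))) ^ (p - 1) = 1 := by
      rw [← NNReal.coe_inj, NNReal.coe_mul, NNReal.coe_rpow, NNReal.coe_one,
        Real.coe_toNNReal (tail p h (m + 1)) (Real.exp_pos _).le,
        Real.coe_toNNReal _ (Real.exp_pos _).le, tail, ← Real.exp_mul, ← Real.exp_add]
      push_cast
      rw [← Real.exp_zero]
      congr 1
      ring
    have h15 : 0 < (Real.toNNReal (Real.exp (h * (m + 1 : ℕ)))) ^ (p - 1) :=
      NNReal.rpow_pos (Real.toNNReal_pos.mpr (Real.exp_pos _))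
    rw [← h14] at h9
    exact le_of_mul_le_mul_right h9 h15
  rw [line_energy]
  calc ENNReal.ofReal (tail p h (m + 1)) ≤ (E : ℝ≥0∞) := ENNReal.coe_le_coe.mpr h13
    _ = ∑ k ∈ Finset.range (m + 1), (φ (eg k) : ℝ≥0∞) ^ p * (wt p h (eg k) : ℝ≥0∞) := by
        rw [hE]
        push_cast
        apply Finset.sum_congr rfl
        intro k _
        rw [ENNReal.coe_rpow_of_nonneg _ hp0.le]
    _ ≤ _ := ENNReal.sum_le_tsum _

lemma isocap_le (hp : 1 < p) (hh : 0 < h) : line.isocap p (wt p h) (mu p h) ≤ 1 := by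
  classical
  apply iSup_le
  intro s
  apply iSup₂_le
  intro hs hd
  apply ENNReal.div_le_of_le_mul
  rw [one_mul, ← measure_biUnion_finset hd (fun α _ => measurableSet_S α)]
  -- minimal index
  obtain ⟨m, hm, hmin⟩ : ∃ m, eg m ∈ s ∧ ∀ k, eg k ∈ s → m ≤ k := by
    obtain ⟨α, hα⟩ := hs
    obtain ⟨k, rfl⟩ := eg_surj α
    have hex : ∃ k, eg k ∈ s := ⟨k, hα⟩
    exact ⟨Nat.find hex, Nat.find_spec hex, fun j hj => Nat.find_min' hex hj⟩
  have hmeas : MeasurableSet (⋃ α ∈ s, line.S α) :=
    Finset.measurableSet_biUnion _ fun α _ => measurableSet_S α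
  refine (mu_apply hp hh m _ hmeas ?_).trans (cap_ge hp hh m _ ?_)
  · intro n hn
    rw [mem_iUnion₂] at hn
    obtain ⟨α, hα, hn⟩ := hn
    obtain ⟨k, rfl⟩ := eg_surj α
    have h1 : k < n + 1 := (line_path (n + 1) k).mp hn
    have := hmin k hα
    omega
  · rw [mem_iUnion₂]
    exact ⟨eg m, hm, (line_path (m + 1) m).mpr (by omega)⟩

end Example

section Lower

variable {p h : ℝ}

/-- the test sequence, with `b = (p-1)/p` -/
noncomputable def seq (p h : ℝ) (N k : ℕ) : ℝ≥0 :=
  if k < N then Real.toNNReal (Real.exp ((p - 1) / p * h * (k + 1)) -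
    (if k = 0 then 0 else Real.exp ((p - 1) / p * h * k))) else 0

lemma seq_sum (hp : 1 < p) (hh : 0 < h) (N n : ℕ) (hn : n < N) :
    ((∑ k ∈ Finset.range (n + 1), seq p h N k : ℝ≥0) : ℝ) = Real.exp ((p - 1) / p * h * (n + 1)) := by
  have hb : 0 < (p - 1) / p * h := mul_pos (div_pos (by linarith) (by linarith)) hh
  induction n with
  | zero =>
    rw [Finset.sum_range_one, seq, if_pos hn, if_pos rfl, sub_zero]
    exact Real.coe_toNNReal _ (Real.exp_pos _).le
  | succ n ih =>
    rw [Finset.sum_range_succ, NNReal.coe_add, ih (by omega), seq, if_pos hn,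
      if_neg (Nat.succ_ne_zero n), Real.coe_toNNReal]
    · push_cast; ring
    · rw [sub_nonneg, Real.exp_le_exp]
      push_cast
      nlinarith

/-- the constant `D` -/
noncomputable def DD (p h : ℝ) : ℝ :=
  (1 - Real.exp (-((p - 1) / p * h))) ^ p * (1 - Real.exp (-h)) ^ (-(p - 1))

noncomputable def C1 (p h : ℝ) : ℝ≥0 := (seq p h 1 0) ^ p * wt p h (eg 0)

lemma seq_term (hp : 1 < p) (hh : 0 < h) (N k : ℕ) (hk : k < N) (hk0 : k ≠ 0) :
    (((seq p h N k) ^ p * wt p h (eg k) : ℝ≥0) : ℝ) = DD p h := by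
  have hp0 : 0 < p := by linarith
  have hb : 0 < (p - 1) / p * h := mul_pos (div_pos (by linarith) (by linarith)) hh
  rw [seq, if_pos hk, if_neg hk0, wt, eg_top, NNReal.coe_mul, NNReal.coe_rpow, NNReal.coe_rpow,
    ell_coe hh, Real.coe_toNNReal]
  · have e1 : Real.exp ((p - 1) / p * h * (k + 1)) - Real.exp ((p - 1) / p * h * k) =
        Real.exp ((p - 1) / p * h * (k + 1)) * (1 - Real.exp (-((p - 1) / p * h))) := by
      rw [mul_sub, mul_one, ← Real.exp_add]
      congr 2
      ring
    have e2 : Real.exp (h * (k + 1)) - Real.exp (h * k) =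
        Real.exp (h * (k + 1)) * (1 - Real.exp (-h)) := by
      rw [mul_sub, mul_one, ← Real.exp_add]
      congr 2
      ring
    have n1 : 0 ≤ 1 - Real.exp (-((p - 1) / p * h)) := by
      rw [sub_nonneg, Real.exp_le_one_iff]
      linarith
    have n2 : 0 ≤ 1 - Real.exp (-h) := by
      rw [sub_nonneg, Real.exp_le_one_iff]
      linarith
    rw [e1, e2, Real.mul_rpow (Real.exp_pos _).le n1, Real.mul_rpow (Real.exp_pos _).le n2,
      ← Real.exp_mul, ← Real.exp_mul, DD]
    have e3 : Real.exp ((p - 1) / p * h * (k + 1) * p) * Real.exp (h * (k + 1) * -(p - 1)) = 1 := by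
      rw [← Real.exp_add, ← Real.exp_zero]
      congr 1
      field_simp
      ring
    calc _ = (Real.exp ((p - 1) / p * h * (k + 1) * p) * Real.exp (h * (k + 1) * -(p - 1))) *
          ((1 - Real.exp (-((p - 1) / p * h))) ^ p * (1 - Real.exp (-h)) ^ (-(p - 1))) := by ring
      _ = _ := by rw [e3, one_mul]
  · rw [sub_nonneg, Real.exp_le_exp]
    nlinarith

lemma DD_nonneg (hp : 1 < p) (hh : 0 < h) : 0 ≤ DD p h := by
  have hb : 0 < (p - 1) / p * h := mul_pos (div_pos (by linarith) (by linarith)) hh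
  have n1 : 0 ≤ 1 - Real.exp (-((p - 1) / p * h)) := by
    rw [sub_nonneg, Real.exp_le_one_iff]
    linarith
  have n2 : 0 ≤ 1 - Real.exp (-h) := by
    rw [sub_nonneg, Real.exp_le_one_iff]
    linarith
  unfold DD
  positivity

/-- the test function on the edges -/
noncomputable def phi (p h : ℝ) (N : ℕ) (α : line.G.edgeSet) : ℝ≥0 := seq p h N (top α)

lemma energy_phi (hp : 1 < p) (hh : 0 < h) (N : ℕ) :
    line.energy p (wt p h) (phi p h N) ≤ ENNReal.ofReal (C1 p h + N * DD p h) := by
  have hp0 : 0 < p := by linarith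
  rw [line_energy, tsum_eq_sum (s := Finset.range N)]
  · have h1 : ∀ k ∈ Finset.range N, (phi p h N (eg k) : ℝ≥0∞) ^ p * (wt p h (eg k) : ℝ≥0∞) ≤
        ENNReal.ofReal ((if k = 0 then (C1 p h : ℝ) else 0) + DD p h) := by
      intro k hk
      rw [Finset.mem_range] at hk
      have h2 : (phi p h N (eg k) : ℝ≥0∞) ^ p * (wt p h (eg k) : ℝ≥0∞) =
          ENNReal.ofReal (((seq p h N k) ^ p * wt p h (eg k) : ℝ≥0) : ℝ) := by
        rw [ENNReal.ofReal_coe_nnreal, ENNReal.coe_mul, ENNReal.coe_rpow_of_nonneg _ hp0.le, phi,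
          eg_top]
      rw [h2]
      apply ENNReal.ofReal_le_ofReal
      by_cases hk0 : k = 0
      · subst hk0
        rw [if_pos rfl, C1]
        have h3 : seq p h N 0 = seq p h 1 0 := by
          unfold seq
          rw [if_pos hk, if_pos one_pos]
        rw [h3]
        have := DD_nonneg hp hh
        linarith
      · rw [seq_term hp hh N k hk hk0, if_neg hk0]
        linarith
    refine (Finset.sum_le_sum h1).trans ?_
    rw [← ENNReal.ofReal_sum_of_nonneg]
    · apply ENNReal.ofReal_le_ofReal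
      rw [Finset.sum_add_distrib, Finset.sum_const, Finset.card_range, nsmul_eq_mul,
        Finset.sum_ite_eq']
      have : (0 : ℝ) ≤ C1 p h := NNReal.coe_nonneg _
      split_ifs <;> linarith
    · intro k _
      have := DD_nonneg hp hh
      have h4 : (0 : ℝ) ≤ C1 p h := NNReal.coe_nonneg _
      split_ifs <;> linarith
  · intro k hk
    rw [Finset.mem_range, not_lt] at hk
    rw [phi, eg_top, seq, if_neg (by omega)]
    simp [ENNReal.zero_rpow_of_pos hp0]

lemma integral_phi (hp : 1 < p) (hh : 0 < h) (N : ℕ) :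
    ENNReal.ofReal (N * (1 - Real.exp (-((p - 1) * h)))) ≤
      ∫⁻ x, line.I (phi p h N) x ^ p ∂(mu p h) := by
  have hp0 : 0 < p := by linarith
  have hm := line_measurable_I (phi p h N)
  unfold mu
  rw [lintegral_sum_measure]
  refine le_trans ?_ (ENNReal.sum_le_tsum (Finset.range N))
  have h1 : ∀ n ∈ Finset.range N, ENNReal.ofReal (1 - Real.exp (-((p - 1) * h))) ≤
      ∫⁻ x, line.I (phi p h N) x ^ p ∂(mass p h n • Measure.dirac (RootedTree.Bar.vertex (n + 1))) := by
    intro n hn
    rw [Finset.mem_range] at hn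
    rw [lintegral_smul_measure, lintegral_dirac' _ (hm.pow_const p), line_I]
    have h2 : ∑ k ∈ Finset.range (n + 1), phi p h N (eg k) =
        ∑ k ∈ Finset.range (n + 1), seq p h N k := by
      apply Finset.sum_congr rfl
      intro k _
      rw [phi, eg_top]
    have h3 : ((∑ k ∈ Finset.range (n + 1), phi p h N (eg k) : ℝ≥0) : ℝ≥0∞) =
        ENNReal.ofReal (Real.exp ((p - 1) / p * h * (n + 1))) := by
      rw [h2, ← seq_sum hp hh N n hn, ENNReal.ofReal_coe_nnreal]
    rw [h3, ENNReal.ofReal_rpow_of_pos (Real.exp_pos _), mass, smul_eq_mul, ← ENNReal.ofReal_mul]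
    · apply ENNReal.ofReal_le_ofReal
      apply le_of_eq
      unfold tail
      rw [← Real.exp_mul]
      have e0 : ∀ a b c : ℝ, (a - b) * c = a * c - b * c := sub_mul
      have e1 : Real.exp (-((p - 1) * h * ((n + 1 : ℕ) : ℝ))) *
          Real.exp ((p - 1) / p * h * (n + 1) * p) = 1 := by
        rw [← Real.exp_add, Real.exp_eq_one_iff]
        push_cast
        field_simp
        ring
      have e2 : Real.exp (-((p - 1) * h * ((n + 2 : ℕ) : ℝ))) *
          Real.exp ((p - 1) / p * h * (n + 1) * p) = Real.exp (-((p - 1) * h)) := by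
        rw [← Real.exp_add]
        congr 1
        push_cast
        field_simp
        ring
      rw [e0 (Real.exp _) (Real.exp _) (Real.exp _), e1, e2]
    · have := tail_anti hp hh (by omega : n + 1 ≤ n + 2)
      linarith
  refine le_trans ?_ (Finset.sum_le_sum h1)
  rw [Finset.sum_const, Finset.card_range, nsmul_eq_mul, ENNReal.ofReal_mul (by positivity)]
  gcongr
  rw [ENNReal.ofReal_natCast]

lemma hardy_ge (hp : 1 < p) (hh : 0 < h) (K : ℝ) (hK : 0 ≤ K)
    (hle : line.hardy p (wt p h) (mu p h) ≤ ENNReal.ofReal K) :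
    1 - Real.exp (-((p - 1) * h)) ≤ K * DD p h := by
  have h1 : ∀ N : ℕ, (N : ℝ) * (1 - Real.exp (-((p - 1) * h))) ≤ K * (C1 p h + N * DD p h) := by
    intro N
    have hC : (0 : ℝ) ≤ C1 p h + N * DD p h := by
      have := DD_nonneg hp hh
      have h4 : (0 : ℝ) ≤ C1 p h := NNReal.coe_nonneg _
      positivity
    have h2 : ENNReal.ofReal (N * (1 - Real.exp (-((p - 1) * h)))) ≤
        ENNReal.ofReal K * ENNReal.ofReal (C1 p h + N * DD p h) := by
      have h3 : ENNReal.ofReal (N * (1 - Real.exp (-((p - 1) * h)))) /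
          ENNReal.ofReal (C1 p h + N * DD p h) ≤ line.hardy p (wt p h) (mu p h) := by
        apply le_sInf
        intro C hC
        apply ENNReal.div_le_of_le_mul
        refine (integral_phi hp hh N).trans ((hC (phi p h N)).trans ?_)
        gcongr
        exact energy_phi hp hh N
      have h5 := h3.trans hle
      by_cases h0 : ENNReal.ofReal (C1 p h + N * DD p h) = 0
      · -- the energy vanishes
        have h6 : line.hardy p (wt p h) (mu p h) < ⊤ := hle.trans_lt ENNReal.ofReal_lt_top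
        obtain ⟨C, hC, hC2⟩ := sInf_lt_iff.mp h6
        have h7 := (integral_phi hp hh N).trans ((hC (phi p h N)).trans
          (mul_le_mul_right (energy_phi hp hh N) C))
        rw [h0, mul_zero] at h7
        exact h7.trans bot_le
      · rw [ENNReal.div_le_iff_le_mul (Or.inl h0) (Or.inl ENNReal.ofReal_ne_top)] at h5
        exact h5
    rw [← ENNReal.ofReal_mul hK] at h2
    exact (ENNReal.ofReal_le_ofReal_iff (mul_nonneg hK hC)).mp h2
  by_contra hcon
  push Not at hcon
  obtain ⟨N, hN⟩ := exists_nat_gt (K * C1 p h / (1 - Real.exp (-((p - 1) * h)) - K * DD p h))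
  have h2 := h1 N
  have h3 : 0 < 1 - Real.exp (-((p - 1) * h)) - K * DD p h := by linarith
  rw [div_lt_iff₀ h3] at hN
  nlinarith

end Lower

lemma slope (a : ℝ) : Filter.Tendsto (fun h : ℝ => (1 - Real.exp (-(a * h))) / h)
    (nhdsWithin 0 (Ioi 0)) (nhds a) := by
  have h1 : HasDerivAt (fun h : ℝ => 1 - Real.exp (-(a * h))) a 0 := by
    have h2 : HasDerivAt (fun h : ℝ => -(a * h)) (-a) 0 := by
      have h := (hasDerivAt_id (0 : ℝ)).const_mul (-a)
      simpa [neg_mul] using h
    have h3 := h2.exp.const_sub 1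
    simpa using h3
  have h4 := h1.tendsto_slope_zero_right
  refine h4.congr' ?_
  filter_upwards with h
  simp [smul_eq_mul, div_eq_inv_mul]

lemma lower (p : ℝ) (hp : 1 < p) (K : ℝ)
    (h : ∀ h : ℝ, 0 < h → 1 - Real.exp (-((p - 1) * h)) ≤ K * DD p h) :
    p ^ p / (p - 1) ^ (p - 1) ≤ K := by
  have hp0 : 0 < p := by linarith
  have hp1 : 0 < p - 1 := by linarith
  have h1 : ∀ h : ℝ, 0 < h → ((1 - Real.exp (-((p - 1) * h))) / h) *
      ((1 - Real.exp (-(1 * h))) / h) ^ (p - 1) ≤ K * ((1 - Real.exp (-((p - 1) / p * h))) / h) ^ p := by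
    intro x hx
    have hb : 0 < (p - 1) / p * x := mul_pos (div_pos (by linarith) (by linarith)) hx
    have h2 := h x hx
    have n1 : 0 ≤ 1 - Real.exp (-((p - 1) / p * x)) := by
      rw [sub_nonneg, Real.exp_le_one_iff]
      linarith
    have n2 : 0 < 1 - Real.exp (-x) := by
      rw [sub_pos, Real.exp_lt_one_iff]
      linarith
    rw [one_mul, Real.div_rpow n2.le hx.le, Real.div_rpow n1 hx.le]
    unfold DD at h2
    rw [Real.rpow_neg n2.le] at h2
    have n3 : 0 < (1 - Real.exp (-x)) ^ (p - 1) := Real.rpow_pos_of_pos n2 _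
    have n4 : 0 < x ^ (p - 1) := Real.rpow_pos_of_pos hx _
    have h3 : (1 - Real.exp (-((p - 1) * x))) * (1 - Real.exp (-x)) ^ (p - 1) ≤
        K * (1 - Real.exp (-((p - 1) / p * x))) ^ p := by
      calc _ ≤ (K * ((1 - Real.exp (-((p - 1) / p * x))) ^ p *
            ((1 - Real.exp (-x)) ^ (p - 1))⁻¹)) * (1 - Real.exp (-x)) ^ (p - 1) := by gcongr
        _ = _ := by field_simp
    have h4 : x ^ p = x * x ^ (p - 1) := by
      rw [← Real.rpow_one_add' hx.le (by linarith)]
      congr 1
      ring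
    rw [h4]
    calc _ = ((1 - Real.exp (-((p - 1) * x))) * (1 - Real.exp (-x)) ^ (p - 1)) /
          (x * x ^ (p - 1)) := by field_simp
      _ ≤ (K * (1 - Real.exp (-((p - 1) / p * x))) ^ p) / (x * x ^ (p - 1)) := by gcongr
      _ = _ := by ring
  have hL : Filter.Tendsto (fun h : ℝ => ((1 - Real.exp (-((p - 1) * h))) / h) *
      ((1 - Real.exp (-(1 * h))) / h) ^ (p - 1)) (nhdsWithin 0 (Ioi 0))
      (nhds ((p - 1) * 1 ^ (p - 1))) :=
    (slope (p - 1)).mul ((slope 1).rpow_const (Or.inr hp1.le))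
  have hR : Filter.Tendsto (fun h : ℝ => K * ((1 - Real.exp (-((p - 1) / p * h))) / h) ^ p)
      (nhdsWithin 0 (Ioi 0)) (nhds (K * ((p - 1) / p) ^ p)) :=
    ((slope ((p - 1) / p)).rpow_const (Or.inr hp0.le)).const_mul K
  have h5 := le_of_tendsto_of_tendsto hL hR (by
    filter_upwards [self_mem_nhdsWithin] with x hx
    exact h1 x hx)
  rw [Real.one_rpow, mul_one, Real.div_rpow hp1.le hp0.le] at h5
  have n5 : 0 < p ^ p := Real.rpow_pos_of_pos hp0 _
  have n6 : 0 < (p - 1) ^ (p - 1) := Real.rpow_pos_of_pos hp1 _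
  have h6 : (p - 1) ^ p = (p - 1) * (p - 1) ^ (p - 1) := by
    rw [← Real.rpow_one_add' hp1.le (by linarith)]
    congr 1
    ring
  rw [h6] at h5
  rw [div_le_iff₀ n6]
  have h7 : (p - 1) * p ^ p ≤ (p - 1) * (K * (p - 1) ^ (p - 1)) := by
    calc (p - 1) * p ^ p ≤ (K * ((p - 1) * (p - 1) ^ (p - 1) / p ^ p)) * p ^ p := by gcongr
      _ = _ := by field_simp
  exact le_of_mul_le_mul_left h7 hp1

/-- For every `1 < p < ∞` the best constant `K_p` in `[μ] ≤ K_p [[μ]]_c`, over all locally finite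
rooted trees, all edge weights and all measures, is `p^p / (p-1)^(p-1)`. -/
theorem result (p : ℝ) (hp : 1 < p) :
    IsLeast {K : ℝ≥0∞ | ∀ (V : Type) [Countable V] (T : RootedTree V)
      (π : T.G.edgeSet → ℝ≥0) (μ : Measure T.Bar), T.hardy p π μ ≤ K * T.isocap p π μ}
      (ENNReal.ofReal (p ^ p / (p - 1) ^ (p - 1))) := by
  have hp0 : 0 < p := by linarith
  have hp1 : 0 < p - 1 := by linarith
  constructor
  · intro V _ T π μ
    have h1 : p ^ p / (p - 1) ^ (p - 1) = p * (p / (p - 1)) ^ (p - 1) := by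
      rw [Real.div_rpow hp0.le hp1.le, Real.rpow_sub_one hp0.ne' p]
      field_simp
    rw [h1]
    exact upper p hp π μ
  · intro K hK
    by_cases htop : K = ⊤
    · rw [htop]; exact le_top
    · rw [← ENNReal.ofReal_toReal htop]
      apply ENNReal.ofReal_le_ofReal
      apply lower p hp K.toReal
      intro h hh
      apply hardy_ge hp hh K.toReal ENNReal.toReal_nonneg
      rw [ENNReal.ofReal_toReal htop]
      calc line.hardy p (wt p h) (mu p h) ≤ K * line.isocap p (wt p h) (mu p h) := hK ℕ line _ _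
        _ ≤ K * 1 := by gcongr; exact isocap_le hp hh
        _ = K := mul_one K

end Pool.Agent.Results.MP_a9eb04_an.SharpConstant
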